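import Pool.Agent.Lib.MP_452a87_nt.SG.All

/-!
# Schneider's conjecture for every `β` and every generic combination of logarithms
-/

set_option autoImplicit false

namespace Pool.Agent.SMQ.OldGA

/-- Let `F ⊂ ℂ` be a number field of degree `D` and let `L 1, …, L m` be logarithms of algebraic numbers, linearly independent over `ℚ`,
`m ≥ 6 D²`. There is a nonzero rational polynomial `P` of degree less than `D` such that for every `n ∈ ℚ^m` with `P(n) ≠ 0` the number
`L = ∑ n i L i` has, for every irrational `β ∈ F`, of degree `d`, the property that `exp (β L), …, exp (β^(d-1) L)` are algebraically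
independent over `ℚ`. -/
theorem result (m : ℕ) (F : IntermediateField ℚ ℂ) (hF : FiniteDimensional ℚ F) (hm : 6 * Module.finrank ℚ F ^ 2 ≤ m)
    (L : Fin m → ℂ) (hL : LinearIndependent ℚ L) (hLa : ∀ i, IsAlgebraic ℚ (Complex.exp (L i))) :
    ∃ P : MvPolynomial (Fin m) ℚ, P ≠ 0 ∧ P.totalDegree < Module.finrank ℚ F ∧
      ∀ n : Fin m → ℚ, MvPolynomial.eval n P ≠ 0 → ∀ β ∈ F, (∀ q : ℚ, (q : ℂ) ≠ β) →
        AlgebraicIndependent ℚ (fun i : Fin ((minpoly ℚ β).natDegree - 1) =>
          Complex.exp (β ^ ((i : ℕ) + 1) * ∑ k, (n k : ℂ) * L k)) := by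
  have hpos : 0 < Module.finrank ℚ F := Module.finrank_pos
  obtain ⟨e, he⟩ : ∃ e, Module.finrank ℚ F = e + 1 := ⟨Module.finrank ℚ F - 1, by omega⟩
  rw [he] at hm ⊢
  obtain ⟨P, hP0, hPd, hP⟩ := Pool.Agent.SG.All.aBTp e m F hF he hm L hL hLa
  exact ⟨P, hP0, by omega, hP⟩

end Pool.Agent.SMQ.OldGA
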