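import Pool.Agent.Lib.MP_452a87_nt.AllE

/-!
# Schneider's conjecture for almost all subfields of every multiquadratic field, with a power saving

For all `j, m`, every multiquadratic field `F ⊆ ℂ` of degree `2 ^ m`, every nonzero algebraic number `α` and every nonzero logarithm `L` of
`α`: among the subfields `K` of `F` of degree `d = 2 ^ j` at most a proportion `2 ^ (2 ^ j + 3) * 2 ^ (- m / 2 ^ (j (j + 4)))` do
not have the property that for every `β` with `ℚ(β) = K` the numbers `α ^ β, …, α ^ (β ^ (d - 1))` are algebraically independent.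
-/

set_option autoImplicit false

namespace Pool.Agent.SMQ.OldSPS

theorem result :
    ∀ (j m : ℕ) (S : Set ℂ), (∀ x ∈ S, ∃ q : ℚ, x ^ 2 = (q : ℂ)) →
      Module.finrank ℚ (IntermediateField.adjoin ℚ S) = 2 ^ m →
      ∀ α L : ℂ, IsAlgebraic ℚ α → Complex.exp L = α → L ≠ 0 →
        ({K : IntermediateField ℚ ℂ | K ≤ IntermediateField.adjoin ℚ S ∧ Module.finrank ℚ K = 2 ^ j}.Finite) ∧
        (Set.ncard {K : IntermediateField ℚ ℂ | K ≤ IntermediateField.adjoin ℚ S ∧ Module.finrank ℚ K = 2 ^ j ∧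
          ¬ ∀ β : ℂ, IntermediateField.adjoin ℚ {β} = K →
            AlgebraicIndependent ℚ (fun i : Fin (2 ^ j - 1) => Complex.exp (β ^ ((i : ℕ) + 1) * L))} : ℝ) ≤
          2 ^ (2 ^ j + 3) * (2 : ℝ) ^ (-((m : ℝ) / 2 ^ (j * (j + 4)))) *
            Set.ncard {K : IntermediateField ℚ ℂ | K ≤ IntermediateField.adjoin ℚ S ∧ Module.finrank ℚ K = 2 ^ j} := by
  intro j m S hS hd α L hα hL hL0
  obtain ⟨h1, h2⟩ := Pool.Agent.SMQ.AllE.aEFp j m S hS hd L hL0 (by rw [hL]; exact hα)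
  refine ⟨h1, ?_⟩
  have he : {K : IntermediateField ℚ ℂ | K ≤ IntermediateField.adjoin ℚ S ∧ Module.finrank ℚ K = 2 ^ j ∧
      Pool.Agent.SMQ.BadK (2 ^ j) L K} = {K : IntermediateField ℚ ℂ | K ≤ IntermediateField.adjoin ℚ S ∧
        Module.finrank ℚ K = 2 ^ j ∧ ¬ ∀ β : ℂ, IntermediateField.adjoin ℚ {β} = K →
            AlgebraicIndependent ℚ (fun i : Fin (2 ^ j - 1) => Complex.exp (β ^ ((i : ℕ) + 1) * L))} := by
    ext K
    simp only [Set.mem_setOf_eq, Pool.Agent.SMQ.BadK]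
    constructor
    · rintro ⟨a, b, β, hβ, hn⟩
      exact ⟨a, b, fun hall => hn (hall β hβ)⟩
    · rintro ⟨a, b, hn⟩
      push Not at hn
      obtain ⟨β, hβ, hn'⟩ := hn
      exact ⟨a, b, β, hβ, hn'⟩
  rw [← he]
  exact h2

end Pool.Agent.SMQ.OldSPS
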